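import Pool.Agent.Y560.TT.Fin5
import Pool.Agent.Q331.PT.Base

set_option autoImplicit false

/-!
# The countable-or-perfect dichotomy for reducts of towers whose segments have extendable automorphisms

Structures on `ℕ` in a countable relational language (arities `a`), and their expansions by countably many further
relations (arities `b`). `T` is an isomorphism-invariant Borel set of expanded structures `(x, z)`; each carries an
invariant Borel total preorder (of any order type), up to isomorphism only countably many structures occur as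
initial segments, and the automorphisms of an initial segment which fix a suitable finite set extend. Every structure
`x` has, up to automorphisms of `x`, only countably many expansions in `T`. Then the class of all the structures `x`
with an expansion in `T` has countably many isomorphism types, or there is a continuous map from the Cantor space into
it that sends different points to non-isomorphic structures.

The case without expansions is the starting lemma `Pool.Agent.Y560.TT.tower_gen`.
-/

namespace Pool.Agent.Results.MP_5607ba_lc.ReductsOfExtendableTowers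

/-- Structures on `ℕ` in a countable relational language: the relation number `i` has arity
`a i`. -/
abbrev Structures (a : ℕ → ℕ) : Type := (i : ℕ) → (Fin (a i) → ℕ) → Bool

/-- `σ` is an isomorphism from `x` to `y`. -/
def IsIso {a : ℕ → ℕ} (σ : Equiv.Perm ℕ) (x y : Structures a) : Prop :=
  ∀ (i : ℕ) (v : Fin (a i) → ℕ), y i (fun k => σ (v k)) = x i v

/-- `σ` is an isomorphism from the expanded structure `(x, z)` to the expanded structure `(x', z')`. -/
def IsIso₂ {a b : ℕ → ℕ} (σ : Equiv.Perm ℕ) (p q : Structures a × Structures b) : Prop :=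
  IsIso σ p.1 q.1 ∧ IsIso σ p.2 q.2

/-- The set `T` of expanded structures is closed under isomorphism. -/
def Invariant {a b : ℕ → ℕ} (T : Set (Structures a × Structures b)) : Prop :=
  ∀ p ∈ T, ∀ (q : Structures a × Structures b) (σ : Equiv.Perm ℕ), IsIso₂ σ p q → q ∈ T

/-- Every structure `x` has, up to the automorphisms of `x`, only countably many expansions in `T`. -/
def FewExpansions {a b : ℕ → ℕ} (T : Set (Structures a × Structures b)) : Prop :=
  ∀ x : Structures a, ∃ f : ℕ → Structures b, ∀ z, (x, z) ∈ T → ∃ (n : ℕ) (σ : Equiv.Perm ℕ),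
    IsIso₂ σ (x, f n) (x, z)

/-- A total preorder `D p` (read `D p m n` as `m ≤ n`) on the universe `ℕ` of each expanded structure `p` in
`T`, which depends on `p` in a Borel way and is preserved by isomorphisms. -/
structure BorelPreorder {a b : ℕ → ℕ} (T : Set (Structures a × Structures b))
    (D : Structures a × Structures b → ℕ → ℕ → Prop) : Prop where
  borel : ∀ m n, MeasurableSet {p | p ∈ T ∧ D p m n}
  invariant : ∀ p ∈ T, ∀ (q : Structures a × Structures b) (σ : Equiv.Perm ℕ), IsIso₂ σ p q →
    ∀ m n, D p m n ↔ D q (σ m) (σ n)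
  total : ∀ p ∈ T, ∀ m n, D p m n ∨ D p n m
  trans : ∀ p ∈ T, ∀ k m n, D p k m → D p m n → D p k n

/-- The initial segment of the expanded structure `p` below `m`, as a subset of `ℕ`. -/
abbrev Segment {a b : ℕ → ℕ} (D : Structures a × Structures b → ℕ → ℕ → Prop) (p : Structures a × Structures b)
    (m : ℕ) : Type := {k // D p k m}

/-- `φ` is an isomorphism between initial segments: it preserves the relations of both parts and the preorder. -/
def IsSegmentIso {a b : ℕ → ℕ} (D : Structures a × Structures b → ℕ → ℕ → Prop) {p : Structures a × Structures b}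
    {m : ℕ} {q : Structures a × Structures b} {n : ℕ} (φ : Segment D p m ≃ Segment D q n) : Prop :=
  (∀ (i : ℕ) (v : Fin (a i) → Segment D p m),
    q.1 i (fun k => (φ (v k) : ℕ)) = p.1 i fun k => (v k : ℕ)) ∧
  (∀ (i : ℕ) (v : Fin (b i) → Segment D p m),
    q.2 i (fun k => (φ (v k) : ℕ)) = p.2 i fun k => (v k : ℕ)) ∧
  ∀ r s, D q (φ r) (φ s) ↔ D p r s

/-- Up to isomorphism there are only countably many initial segments of expanded structures in `T`. -/
def CountablyManySegments {a b : ℕ → ℕ} (T : Set (Structures a × Structures b))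
    (D : Structures a × Structures b → ℕ → ℕ → Prop) : Prop :=
  ∃ f : ℕ → (Structures a × Structures b) × ℕ, (∀ k, (f k).1 ∈ T) ∧ ∀ p ∈ T, ∀ m,
    ∃ (k : ℕ) (φ : Segment D (f k).1 (f k).2 ≃ Segment D p m), IsSegmentIso D φ

/-- Every initial segment has a finite set `C` of elements such that the following holds, wherever
the segment occurs as an initial segment of an expanded structure `q` in `T` (by an isomorphism `φ`): the
automorphisms `ψ` of the segment which fix (the image of) `C` pointwise extend to automorphisms `σ`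
of `q`. -/
def AutomorphismsExtend {a b : ℕ → ℕ} (T : Set (Structures a × Structures b))
    (D : Structures a × Structures b → ℕ → ℕ → Prop) : Prop :=
  ∀ p ∈ T, ∀ m, ∃ C : Set (Segment D p m), C.Finite ∧ ∀ q ∈ T, ∀ (n : ℕ)
    (φ : Segment D p m ≃ Segment D q n), IsSegmentIso D φ →
    ∀ ψ : Segment D q n ≃ Segment D q n, IsSegmentIso D ψ → (∀ c ∈ C, ψ (φ c) = φ c) →
      ∃ σ : Equiv.Perm ℕ, IsIso₂ σ q q ∧ ∀ r : Segment D q n, σ r = ψ r

open Pool.Agent.Q331.PT (both fs sn comm mk ar)

/-- isomorphisms of segments of the common structures -/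
lemma seg {a b : ℕ → ℕ} (D : Structures a × Structures b → ℕ → ℕ → Prop) {x : Structures (both a b)}
    {m : ℕ} {y : Structures (both a b)} {n : ℕ}
    (φ : {k // D (fs x, sn x) k m} ≃ {k // D (fs y, sn y) k n}) :
    Pool.Agent.Y560.TT.SegIso (fun y => D (fs y, sn y)) x m y n φ ↔
      IsSegmentIso D (p := (fs x, sn x)) (q := (fs y, sn y)) φ := by
  have h := Pool.Agent.Q331.PT.all_iff (a := a) (b := b) (Φ := fun s X Y =>
      ∀ v : Fin (ar a b s) → {k // D (fs x, sn x) k m},
        Y (fun k => (φ (v k) : ℕ)) = X fun k => (v k : ℕ)) x y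
  constructor
  · rintro ⟨h1, h2⟩
    have h3 := h.1 h1
    exact ⟨h3.1, h3.2, h2⟩
  · rintro ⟨h1, h2, h3⟩
    exact ⟨h.2 ⟨h1, h2⟩, h3⟩

/-- Let `T` be an isomorphism-invariant Borel set of structures `(x, z)`, where every `x` has only countably many
expansions `(x, z)` in `T` up to automorphisms of `x`, with an invariant Borel preorder, with countably many
isomorphism types of initial segments, whose automorphisms over suitable finite sets extend. Then the structures `x`
with an expansion in `T` have countably many isomorphism types, or there is a continuous map `c` from the Cantor space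
such that all `c s` have an expansion in `T` and `c s`, `c t` are not isomorphic for `s ≠ t`. -/
theorem result (a b : ℕ → ℕ) (T : Set (Structures a × Structures b)) (hT : MeasurableSet T)
    (hi : Invariant T) (hf : FewExpansions T) (D : Structures a × Structures b → ℕ → ℕ → Prop)
    (hD : BorelPreorder T D) (hc : CountablyManySegments T D) (he : AutomorphismsExtend T D) :
    (∃ f : ℕ → Structures a, ∀ x, (∃ z, (x, z) ∈ T) → ∃ (n : ℕ) (σ : Equiv.Perm ℕ), IsIso σ (f n) x) ∨
    (∃ c : (ℕ → Bool) → Structures a, Continuous c ∧ (∀ s, ∃ z, (c s, z) ∈ T) ∧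
      ∀ s t, (∃ σ : Equiv.Perm ℕ, IsIso σ (c s) (c t)) → s = t) := by
  have hinv : ∀ x y : Structures (both a b), Pool.Agent.H533R2.VO.RIso x y → (x ∈ comm T ↔ y ∈ comm T) := by
    rintro x y ⟨σ, hσ⟩
    have h1 : Pool.Agent.Q331.PT.Iso σ x y := hσ
    refine ⟨fun hx => hi _ hx _ σ (Pool.Agent.Q331.PT.iso_iff.1 h1),
      fun hy => hi _ hy _ σ.symm (Pool.Agent.Q331.PT.iso_iff.1 h1.symm)⟩
  refine Pool.Agent.Q331.PT.reduct (a := a) (b := b) (T := T) (fun p hp q σ h1 h2 => hi p hp q σ ⟨h1, h2⟩)
    (fun x => hf x) ?_
  refine Pool.Agent.Y560.TT.tower_gen (both a b) (comm T) (Pool.Agent.Q331.PT.comm_meas hT) hinv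
    (fun y => D (fs y, sn y)) ⟨fun m n => ?_, fun y hy y' σ h => ?_, fun y hy => hD.total _ hy,
      fun y hy => hD.trans _ hy⟩ ?_ fun x hx m => ?_
  · exact Pool.Agent.Q331.PT.pair_meas (hD.borel m n)
  · exact hD.invariant _ hy _ σ (Pool.Agent.Q331.PT.iso_iff.1 h)
  · obtain ⟨f, hf1, hf2⟩ := hc
    have hmk : ∀ k, (fs (mk (f k).1.1 (f k).1.2), sn (mk (f k).1.1 (f k).1.2)) = (f k).1 := fun k => by
      rw [Pool.Agent.Q331.PT.fs_mk, Pool.Agent.Q331.PT.sn_mk]
    refine ⟨fun k => (mk (f k).1.1 (f k).1.2, (f k).2), fun k => ?_, fun y hy m => ?_⟩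
    · show (fs (mk (f k).1.1 (f k).1.2), sn (mk (f k).1.1 (f k).1.2)) ∈ T
      rw [hmk]
      exact hf1 k
    · obtain ⟨k, φ, hφ⟩ := hf2 (fs y, sn y) hy m
      refine ⟨k, ?_⟩
      have key : ∀ p : Structures a × Structures b, p = (f k).1 →
          ∃ φ : {j // D p j (f k).2} ≃ {j // D (fs y, sn y) j m}, IsSegmentIso D (p := p) (q := (fs y, sn y)) φ := by
        rintro p rfl
        exact ⟨φ, hφ⟩
      obtain ⟨φ', hφ'⟩ := key _ (hmk k)
      exact ⟨φ', (seg D φ').2 hφ'⟩
  · obtain ⟨C, hC, h⟩ := he (fs x, sn x) hx m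
    refine ⟨Subtype.val '' C, hC.image _, ?_, ?_⟩
    · rintro _ ⟨c, -, rfl⟩
      exact c.2
    · intro y hy n φ hφ ψ hψ hfix
      obtain ⟨σ, h1, h2⟩ := h (fs y, sn y) hy n φ ((seg D φ).1 hφ) ψ ((seg D ψ).1 hψ) fun c hc => hfix c ⟨c, hc, rfl⟩
      exact ⟨σ, Pool.Agent.Q331.PT.iso_iff.2 h1, h2⟩

end Pool.Agent.Results.MP_5607ba_lc.ReductsOfExtendableTowers
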