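import Pool.Agent.Y560.TT.Fin1
import Pool.Agent.Q331.PT.Base

set_option autoImplicit false

/-!
# The countable-or-perfect dichotomy for reducts of towers

Structures on `ℕ` in a countable relational language (arities `a`), and their expansions by countably many further
relations (arities `b`). `T` is an isomorphism-invariant Borel set of expanded structures `(x, z)`; each carries an
invariant Borel total preorder (of any order type) all of whose initial segments, with all the relations of `x` and
`z`, have only countably many automorphisms. Every structure `x` has, up to automorphisms of `x`, only countably many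
expansions in `T`. Then the class of all the structures `x` with an expansion in `T` has countably many isomorphism
types, or there is a continuous map from the Cantor space into it that sends different points to non-isomorphic
structures.

The case without expansions is the starting lemma `Pool.Agent.Y560.TT.tower_rel`. The expansions need not be
determined by `x`: an example of an expansion is the choice of finitely many elements, or of one of countably many
preorders that are permuted by the automorphisms of `x`. The passage from the expansions to the reducts uses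
the lemma `Pool.Agent.H702R3.TV.core` of the starting files on analytic relations with countable sections.
-/

namespace Pool.Agent.Results.MP_5607ba_lc.ReductsOfTowers

/-- Structures on `ℕ` in a countable relational language: the relation number `i` has arity
`a i`. -/
abbrev Structures (a : ℕ → ℕ) : Type := (i : ℕ) → (Fin (a i) → ℕ) → Bool

/-- `σ` is an isomorphism from `x` to `y`. -/
def IsIso {a : ℕ → ℕ} (σ : Equiv.Perm ℕ) (x y : Structures a) : Prop :=
  ∀ (i : ℕ) (v : Fin (a i) → ℕ), y i (fun k => σ (v k)) = x i v

/-- `σ` is an isomorphism from the expanded structure `(x, z)` to the expanded structure `(x', z')`. -/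
def IsIso₂ {a b : ℕ → ℕ} (σ : Equiv.Perm ℕ) (p q : Structures a × Structures b) : Prop :=
  IsIso σ p.1 q.1 ∧ IsIso σ p.2 q.2

/-- The set `T` of expanded structures is closed under isomorphism. -/
def Invariant {a b : ℕ → ℕ} (T : Set (Structures a × Structures b)) : Prop :=
  ∀ p ∈ T, ∀ (q : Structures a × Structures b) (σ : Equiv.Perm ℕ), IsIso₂ σ p q → q ∈ T

/-- Every structure `x` has, up to the automorphisms of `x`, only countably many expansions in `T`. -/
def FewExpansions {a b : ℕ → ℕ} (T : Set (Structures a × Structures b)) : Prop :=
  ∀ x : Structures a, ∃ f : ℕ → Structures b, ∀ z, (x, z) ∈ T → ∃ (n : ℕ) (σ : Equiv.Perm ℕ),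
    IsIso₂ σ (x, f n) (x, z)

/-- A total preorder `D p` (read `D p m n` as `m ≤ n`) on the universe `ℕ` of each expanded structure `p` in
`T`, which depends on `p` in a Borel way and is preserved by isomorphisms. The preorder need not be
definable in a logic and may have any order type. -/
structure BorelPreorder {a b : ℕ → ℕ} (T : Set (Structures a × Structures b))
    (D : Structures a × Structures b → ℕ → ℕ → Prop) : Prop where
  borel : ∀ m n, MeasurableSet {p | p ∈ T ∧ D p m n}
  invariant : ∀ p ∈ T, ∀ (q : Structures a × Structures b) (σ : Equiv.Perm ℕ), IsIso₂ σ p q →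
    ∀ m n, D p m n ↔ D q (σ m) (σ n)
  total : ∀ p ∈ T, ∀ m n, D p m n ∨ D p n m
  trans : ∀ p ∈ T, ∀ k m n, D p k m → D p m n → D p k n

/-- The automorphisms of the initial segment `{n | D p n m}` of `p = (x, z)`: its permutations which preserve the
relations of `x` and of `z` on the segment and the preorder. (They need not extend to automorphisms of `x`.) -/
def SegmentAutomorphisms {a b : ℕ → ℕ} (D : Structures a × Structures b → ℕ → ℕ → Prop)
    (p : Structures a × Structures b) (m : ℕ) : Set (Equiv.Perm {n // D p n m}) :=
  {σ | (∀ (i : ℕ) (v : Fin (a i) → {n // D p n m}),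
      p.1 i (fun k => (σ (v k) : ℕ)) = p.1 i fun k => (v k : ℕ)) ∧
    (∀ (i : ℕ) (v : Fin (b i) → {n // D p n m}),
      p.2 i (fun k => (σ (v k) : ℕ)) = p.2 i fun k => (v k : ℕ)) ∧
    ∀ r s, D p (σ r) (σ s) ↔ D p r s}

open Pool.Agent.Q331.PT (both fs sn comm)

/-- Let `T` be an isomorphism-invariant Borel set of structures `(x, z)`, where every `x` has only countably many
expansions `(x, z)` in `T` up to automorphisms of `x`, with an invariant Borel preorder all of whose initial segments
have only countably many automorphisms. Then the structures `x` with an expansion in `T` have countably many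
isomorphism types, or there is a continuous map `c` from the Cantor space such that all `c s` have an expansion in `T`
and `c s`, `c t` are not isomorphic for `s ≠ t`. -/
theorem result (a b : ℕ → ℕ) (T : Set (Structures a × Structures b)) (hT : MeasurableSet T)
    (hi : Invariant T) (hf : FewExpansions T) (D : Structures a × Structures b → ℕ → ℕ → Prop)
    (hD : BorelPreorder T D) (hc : ∀ p ∈ T, ∀ m, (SegmentAutomorphisms D p m).Countable) :
    (∃ f : ℕ → Structures a, ∀ x, (∃ z, (x, z) ∈ T) → ∃ (n : ℕ) (σ : Equiv.Perm ℕ), IsIso σ (f n) x) ∨
    (∃ c : (ℕ → Bool) → Structures a, Continuous c ∧ (∀ s, ∃ z, (c s, z) ∈ T) ∧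
      ∀ s t, (∃ σ : Equiv.Perm ℕ, IsIso σ (c s) (c t)) → s = t) := by
  have hinv : ∀ x y : Structures (both a b), Pool.Agent.H533R2.VO.RIso x y → (x ∈ comm T ↔ y ∈ comm T) := by
    rintro x y ⟨σ, hσ⟩
    have h1 : Pool.Agent.Q331.PT.Iso σ x y := hσ
    refine ⟨fun hx => hi _ hx _ σ (Pool.Agent.Q331.PT.iso_iff.1 h1),
      fun hy => hi _ hy _ σ.symm (Pool.Agent.Q331.PT.iso_iff.1 h1.symm)⟩
  refine Pool.Agent.Q331.PT.reduct (a := a) (b := b) (T := T) (fun p hp q σ h1 h2 => hi p hp q σ ⟨h1, h2⟩)
    (fun x => hf x) ?_
  refine Pool.Agent.Y560.TT.tower_rel (both a b) (comm T) (Pool.Agent.Q331.PT.comm_meas hT) hinv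
    (fun y => D (fs y, sn y)) ⟨fun m n => ?_, fun y hy y' σ h => ?_, fun y hy => hD.total _ hy,
      fun y hy => hD.trans _ hy⟩ fun y hy m => ?_
  · exact Pool.Agent.Q331.PT.pair_meas (hD.borel m n)
  · exact hD.invariant _ hy _ σ (Pool.Agent.Q331.PT.iso_iff.1 h)
  · refine (hc _ hy m).mono ?_
    rintro σ ⟨h1, h2⟩
    have h3 := (Pool.Agent.Q331.PT.all_iff (a := a) (b := b) (Φ := fun s X Y =>
      ∀ v : Fin (Pool.Agent.Q331.PT.ar a b s) → {n // D (fs y, sn y) n m},
        X (fun k => (σ (v k) : ℕ)) = Y fun k => (v k : ℕ)) y y).1 h1
    exact ⟨h3.1, h3.2, h2⟩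

end Pool.Agent.Results.MP_5607ba_lc.ReductsOfTowers
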